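import Pool.Agent.X49.ET.Cover

set_option autoImplicit false

/-!
# Bases of order `h` covered by few subsets of low algebraic degree

Write the integers below `p ^ m`, `p` prime, with `m` digits in base `p`. A set `B` is of type
`(s, D)` at the scale `p ^ m` if membership in `B` of the integers below `p ^ m` is a function of the
values of `s` polynomials over the field with `p` elements of degree at most `D` in the digits.

Let `h ≥ 2`, `p` a prime and `ε > 0`. There is `κ > 0` such that for every asymptotic basis `A` of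
order `h` and every large `m`: if the elements of `A` below `p ^ m` are covered by at most
`p ^ ((1 / h - ε) m)` subsets of `A` of types `(s, D)` with `s D ≤ κ m`, then some `n ≤ h p ^ m` has
at least `p ^ (κ m)` unordered representations as a sum of `h` elements of `A`.

So the answer to Q1 is affirmative, with `r_{A,h}(n) ≥ n ^ κ` infinitely often, for all bases with
such a covering at infinitely many scales; and a basis of order `h` with bounded `r_{A,h}` has no
such covering at any large scale, for every prime `p`. (Below `p ^ m` such a basis has at least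
`c p ^ (m / h)` elements, and for `ε = 0` the singletons would be a covering for the thinnest bases,
so the number of sets allowed is optimal up to `ε`.)
-/

namespace Pool.Agent.Results.MP_d5a1e1_nt.AlgebraicDegree

open Filter MvPolynomial

/-- The `m` lowest digits of `n` in base `p`, as elements of the field with `p` elements. -/
def dig (p m n : ℕ) : Fin m → ZMod p := fun i => ((n / p ^ (i : ℕ) % p : ℕ) : ZMod p)

/-- Membership in `B` of the integers below `p ^ m` is a function of the values of `s` polynomials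
of degree at most `D` at the digits. -/
def LowDeg (p m s D : ℕ) (B : Set ℕ) : Prop :=
  ∃ (f : Fin s → MvPolynomial (Fin m) (ZMod p)) (S : Set (Fin s → ZMod p)),
    (∀ j, (f j).totalDegree ≤ D) ∧
    ∀ n < p ^ m, (n ∈ B ↔ (fun j => eval (dig p m n) (f j)) ∈ S)

/-- The number of unordered representations of `n` as a sum of `h` elements of `A`. -/
noncomputable def r (A : Set ℕ) (h n : ℕ) : ℕ :=
  {M : Multiset ℕ | M.card = h ∧ (∀ a ∈ M, a ∈ A) ∧ M.sum = n}.ncard

/-- The elements of `A` below `p ^ m` are covered by at most `p ^ (β m)` subsets of `A` of types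
`(s, D)` with `s D ≤ κ m`. -/
def Covered (p m : ℕ) (β κ : ℝ) (A : Set ℕ) : Prop :=
  ∃ (K : ℕ) (B : Fin K → Set ℕ), (K : ℝ) ≤ (p : ℝ) ^ (β * m) ∧ (∀ i, B i ⊆ A) ∧
    (∀ i, ∃ s D : ℕ, LowDeg p m s D (B i) ∧ (s * D : ℝ) ≤ κ * m) ∧
    ∀ a ∈ A, a < p ^ m → ∃ i, a ∈ B i

theorem result (h : ℕ) (hh : 2 ≤ h) (p : ℕ) [Fact p.Prime] :
    -- (1) every large scale
    (∀ ε : ℝ, 0 < ε → ∃ κ : ℝ, 0 < κ ∧ ∀ A : Set ℕ, (∀ᶠ n in atTop, 1 ≤ r A h n) →
      ∃ m₀ : ℕ, ∀ m : ℕ, m₀ ≤ m → Covered p m (1 / h - ε) κ A →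
        ∃ n : ℕ, n ≤ h * p ^ m ∧ (p : ℝ) ^ (κ * m) ≤ r A h n) ∧
    -- (2) infinitely many scales
    (∀ ε : ℝ, 0 < ε → ∃ κ : ℝ, 0 < κ ∧ ∀ A : Set ℕ, (∀ᶠ n in atTop, 1 ≤ r A h n) →
      (∃ᶠ m : ℕ in atTop, Covered p m (1 / h - ε) κ A) →
      ∃ᶠ n : ℕ in atTop, (n : ℝ) ^ κ ≤ r A h n) ∧
    -- (3) two elements of `B ⊆ A` with different digits in `t` places
    (∀ (m s D t : ℕ) (A B : Set ℕ), B ⊆ A → LowDeg p m s D B →
      ∀ a ∈ B, ∀ b ∈ B, a < p ^ m → b < p ^ m →
      t ≤ (Finset.univ.filter fun i : Fin m => dig p m a i ≠ dig p m b i).card →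
      2 ^ (t - 2 * (p - 1) * s * D) ≤ 2 * r A h (a + b + (h - 2) * a)) := by
  have hp := (Fact.out : p.Prime).two_le
  have hp2 : (2 : ℝ) ≤ p := by exact_mod_cast hp
  have hp0 : (0 : ℝ) < p := by linarith
  have one : ∀ ε : ℝ, 0 < ε → ∃ κ : ℝ, 0 < κ ∧ ∀ A : Set ℕ, (∀ᶠ n in atTop, 1 ≤ r A h n) →
      ∃ m₀ : ℕ, ∀ m : ℕ, m₀ ≤ m → Covered p m (1 / h - ε) κ A →
        ∃ n : ℕ, n ≤ h * p ^ m ∧ (p : ℝ) ^ (κ * m) ≤ r A h n := by
    intro ε hε
    obtain ⟨κ, hκ, H⟩ := Pool.Agent.X49.ET.cover p h hh ε hε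
    refine ⟨κ, hκ, fun A hA => ?_⟩
    obtain ⟨m₀, H'⟩ := H A hA
    refine ⟨m₀, fun m hm hcov => ?_⟩
    obtain ⟨K, B, h1, h2, h3, h4⟩ := hcov
    exact H' m hm K B h1 h2 h3 h4
  refine ⟨one, ?_, ?_⟩
  · intro ε hε
    obtain ⟨κ, hκ, H⟩ := one ε hε
    refine ⟨κ / 2, by positivity, fun A hA hfr => ?_⟩
    obtain ⟨m₀, H'⟩ := H A hA
    rw [frequently_atTop] at hfr ⊢
    intro N
    -- large scale
    have hev : ∀ᶠ m : ℕ in atTop, ((∑ n ∈ Finset.range N, r A h n : ℕ) : ℝ) + 1 ≤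
        (p : ℝ) ^ (κ * m) ∧ (h : ℝ) ≤ (p : ℝ) ^ (m : ℝ) := by
      have h1 : Tendsto (fun m : ℕ => (p : ℝ) ^ (κ * (m : ℝ))) atTop atTop :=
        (tendsto_rpow_atTop_of_base_gt_one _ (by linarith)).comp
          (tendsto_natCast_atTop_atTop.const_mul_atTop hκ)
      have h2 : Tendsto (fun m : ℕ => (p : ℝ) ^ (m : ℝ)) atTop atTop :=
        (tendsto_rpow_atTop_of_base_gt_one _ (by linarith)).comp tendsto_natCast_atTop_atTop
      exact (h1.eventually_ge_atTop _).and (h2.eventually_ge_atTop _)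
    obtain ⟨m₁, hm₁⟩ := eventually_atTop.1 hev
    obtain ⟨m, hm, K, B, h1, h2, h3, h4⟩ := hfr (max m₀ m₁)
    obtain ⟨hb1, hb2⟩ := hm₁ m ((le_max_right _ _).trans hm)
    obtain ⟨n, hn1, hn2⟩ := H' m ((le_max_left _ _).trans hm) ⟨K, B, h1, h2, fun i => by
      obtain ⟨s, D, h5, h6⟩ := h3 i
      refine ⟨s, D, h5, h6.trans ?_⟩
      have hm0 : (0 : ℝ) ≤ m := Nat.cast_nonneg _
      nlinarith [mul_nonneg hκ.le hm0], h4⟩
    refine ⟨n, ?_, ?_⟩
    · by_contra hlt
      have h5 : r A h n ≤ ∑ n ∈ Finset.range N, r A h n :=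
        Finset.single_le_sum (f := fun n => r A h n) (fun _ _ => Nat.zero_le _)
          (Finset.mem_range.2 (by omega))
      have h6 : ((r A h n : ℕ) : ℝ) ≤ ((∑ n ∈ Finset.range N, r A h n : ℕ) : ℝ) := by
        exact_mod_cast h5
      linarith
    · refine le_trans ?_ hn2
      have h5 : (n : ℝ) ≤ (p : ℝ) ^ (2 * (m : ℝ)) := by
        have h6 : (n : ℝ) ≤ (h : ℝ) * (p : ℝ) ^ (m : ℝ) := by
          rw [Real.rpow_natCast]
          exact_mod_cast hn1
        refine h6.trans ?_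
        rw [two_mul, Real.rpow_add hp0]
        exact mul_le_mul_of_nonneg_right hb2 (by positivity)
      calc (n : ℝ) ^ (κ / 2) ≤ ((p : ℝ) ^ (2 * (m : ℝ))) ^ (κ / 2) :=
            Real.rpow_le_rpow (Nat.cast_nonneg _) h5 (by positivity)
        _ = (p : ℝ) ^ (κ * m) := by
            rw [← Real.rpow_mul hp0.le]
            congr 1
            ring
  · intro m s D t A B hBA hB a ha b hb ham hbm ht
    obtain ⟨v, rfl⟩ := Pool.Agent.X49.ET.num_surj (p := p) ham
    obtain ⟨w, rfl⟩ := Pool.Agent.X49.ET.num_surj (p := p) hbm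
    have h1 := Pool.Agent.X49.ET.swap_count (s := s) (D := D) hB v w ha hb t
      (ht.trans (Finset.card_le_card (by
        intro i hi
        refine Finset.mem_filter.2 ⟨Finset.mem_univ _, fun h => (Finset.mem_filter.1 hi).2 ?_⟩
        have h1 := congrFun (Pool.Agent.X49.ET.dig_num v) i
        have h2 := congrFun (Pool.Agent.X49.ET.dig_num w) i
        change dig p m (Pool.Agent.X49.ET.num v) i = _ at h1
        change dig p m (Pool.Agent.X49.ET.num w) i = _ at h2
        rw [h1, h2, h])))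
    exact h1.trans (Pool.Agent.X49.ET.r_le_rh hBA hh (hBA ha))

end Pool.Agent.Results.MP_d5a1e1_nt.AlgebraicDegree
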