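import Mathlib
import Pool.Agent.X6.Cubic3

/-!
# MP_d5a1e1_nt, order 3: sets near the values of a cubic polynomial

A regular sequence which could be an asymptotic basis of order 3 with a bounded representation
function grows like `c n³`. Here the sequences `c P(n) + O(1)` are excluded for every polynomial
`P` of degree 3 with integer coefficients, together with all sets that contain, up to a small
proportion, approximations of the first `N` values of `c P + τ` for arbitrarily large `N`.

`r A 3 n` is the number of representations of `n` as a sum of three elements of `A`, the order of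
the summands being disregarded.

1. Let `P` be an integer polynomial of degree 3 and let `K`, `c₁ > 0` and `w` be given. There are
   `δ > 0` and `N₀` such that for every set `A` with `r_{A,3} ≤ K`, every `N ≥ N₀` and all real
   `c ≥ c₁` and `τ` at least `δ N` of the integers `x < N` are such that no element of `A` lies
   within `w` of `c P(x) + τ`.
2. Hence `r_{A,3}` is unbounded for every set `A` (in particular for every asymptotic basis of
   order 3) for which there are `c₁ > 0` and `w` such that for every `ε > 0` there are arbitrarily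
   large `N` and `c ≥ c₁`, `τ` with an element of `A` within `w` of `c P(x) + τ` for all but at most
   `ε N` of the `x < N`. For example, this is so if for some `c > 0` and `w` the set of the `x`
   for which `A` has no element within `w` of `c P(x)` has lower density zero.

For pure powers `P = x^h` the analogous result (`MP_d5a1e1_nt.NearPowers`) comes from the
homogeneity of the equation. A general cubic polynomial has no such structure, and the singular
series of the problem is finite in mean square. Its unboundedness comes from the critical points.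

Method. Let the discriminant of `P'` be a nonzero square modulo the prime `p`, and let `ξ₁`, `ξ₂` be
the critical points modulo `p`. After an affine substitution the surface
`P(x) + P(y) + P(z) = 2 P(ξ₁) + P(ξ₂)` over `F_p` becomes
`(x³ - 3x) + (y³ - 3y) + (z³ - 3z) = -2`. It contains the line `x + y = 0, z = 1`, and the planes
through this line cut out a family of conics, which shows that there are at least `p² - p`
points. Three of them are singular, and if the constant is chosen correctly modulo `p²`, each of
them has `p³` lifts modulo `p²` instead of `p²` lifts. So the density of the solutions modulo `p²`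
is at least `1 + 1 / (2p)` times the expected one, and the product over these primes diverges by
Dirichlet's theorem in the quantitative form `∑ 1/p = ∞` (if the discriminant of `P'` is zero, the
primes `p ≡ 2 (mod 3)` are used).
-/

namespace Pool.Agent.Results.MP_d5a1e1_nt.CubicPolynomials

open Filter Polynomial Pool.Agent.X6.NearPow

/-- The integers `x < N` such that no element of `A` lies within `w` of `c P(x) + τ`. -/
def far (A : Set ℕ) (P : ℤ[X]) (c τ w : ℝ) (N : ℕ) : Set ℕ :=
  {x | x < N ∧ ∀ a ∈ A, w < |(a : ℝ) - (c * ((P.eval (x : ℤ) : ℤ) : ℝ) + τ)|}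

/-- **Sets with a bounded representation function of order 3 stay away from the affine images of
the sets of values of cubic polynomials.** -/
theorem result (P : ℤ[X]) (hP : P.natDegree = 3) :
    (∀ (K : ℕ) (c₁ w : ℝ), 0 < c₁ → ∃ δ : ℝ, 0 < δ ∧ ∃ N₀ : ℕ,
      ∀ A : Set ℕ, (∀ n, r A 3 n ≤ K) → ∀ N : ℕ, N₀ ≤ N → ∀ c τ : ℝ, c₁ ≤ c →
        δ * N ≤ ((far A P c τ w N).ncard : ℝ)) ∧
    (∀ (A : Set ℕ) (c₁ w : ℝ), 0 < c₁ →
      (∀ ε : ℝ, 0 < ε → ∃ᶠ N : ℕ in atTop, ∃ c τ : ℝ, c₁ ≤ c ∧
        ((far A P c τ w N).ncard : ℝ) ≤ ε * N) →
      ∀ K : ℕ, ∃ n, K < r A 3 n) := by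
  classical
  have key : ∀ (K : ℕ) (c₁ w : ℝ), 0 < c₁ → ∃ δ : ℝ, 0 < δ ∧ ∃ N₀ : ℕ,
      ∀ A : Set ℕ, (∀ n, r A 3 n ≤ K) → ∀ N : ℕ, N₀ ≤ N → ∀ c τ : ℝ, c₁ ≤ c →
        δ * N ≤ ((far A P c τ w N).ncard : ℝ) := by
    intro K c₁ w hc₁
    obtain ⟨δ, hδ, N₀, h1⟩ := Pool.Agent.X6.PolyEng.engine P 3 (by norm_num) hP
      (Pool.Agent.X6.Cubic.hyp hP) K c₁ w hc₁
    refine ⟨δ, hδ, N₀, fun A hA N hN c τ hc => ?_⟩
    refine (h1 A hA N hN c τ hc).trans (le_of_eq ?_)
    have e1 : far A P c τ w N = (((Finset.range N).filter
        (fun x : ℕ => ∀ a ∈ A, w < |(a : ℝ) - (c * ((P.eval (x : ℤ) : ℤ) : ℝ) + τ)|) :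
          Finset ℕ) : Set ℕ) := by
      ext x
      simp [far]
    rw [e1, Set.ncard_coe_finset]
  refine ⟨key, ?_⟩
  intro A c₁ w hc₁ hA K
  by_contra hcon
  push Not at hcon
  obtain ⟨δ, hδ, N₀, h1⟩ := key K c₁ w hc₁
  have h2 := hA (δ / 2) (by positivity)
  obtain ⟨N, hN, c, τ, hc, h3⟩ := Filter.frequently_atTop.1 h2 (N₀ + 1)
  have h4 := h1 A hcon N (by omega) c τ hc
  have h5 : (0 : ℝ) < N := by
    have : 0 < N := by omega
    exact_mod_cast this
  nlinarith

end Pool.Agent.Results.MP_d5a1e1_nt.CubicPolynomials
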