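import Mathlib
import Pool.Agent.X6.Dens.A6

/-!
# MP_d5a1e1_nt: dense subsets of the `h`-th powers

`r A h n` is the number of representations of `n` as a sum of `h` elements of `A`, the order of the
summands being disregarded.

The conjecture is proved, in its strong form (growth of the right order instead of the basis
property), for all sets `A` which up to `o(x^(1/h))` elements lie in a bounded neighbourhood of a
finite union of sequences `c n^h + τ`, for every order `h ≥ 2`. No density of `A` in these sequences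
is assumed.

1. Let `h ≥ 2`, `K`, `c₁ > 0`, `w` and `δ > 0` be given. There is `N₀` such that for every set `A` with
   `r_{A,h} ≤ K`, every `N ≥ N₀` and all real `c ≥ c₁` and `τ`, at most `δ N` of the integers `x < N`
   are such that some element of `A` lies within `w` of `c x^h + τ`.
2. Let `A` be a set such that for some `η > 0` one has `|A ∩ [0, X)|^h ≥ η X` for arbitrarily large
   `X`, and suppose that there are finitely many sequences `c_i n^h + τ_i`, `c_i > 0`, and `w` such that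
   all elements of `A` but `o(X^(1/h))` elements below `X` lie within `w` of a term of one of these
   sequences. Then `r_{A,h}` is unbounded.
3. In particular this holds for all such asymptotic bases `A` of order `h`.

Method. For suitable primes `p` the solutions of `x_1^h + ... + x_h^h ≡ 0 (mod p^h)` in units and the
tuples of multiples of `p` make up `1 + c_h` times the expected number of solutions. A set of
positive density is well distributed in the residue classes modulo `p^h` for many primes `p` by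
Bessel's inequality, since the sum of `1/p` diverges; this applies simultaneously to the finitely
many sets arising in an iteration over primes, in which the product structure of the tuples is
kept by fixing the classes modulo `p^h` of all coordinates. So after `k` steps some integer has at
least `(1 + c_h/4)^k δ^h / (2h)` representations as a sum of `h`-th powers of elements of the set.
-/

namespace Pool.Agent.Results.MP_d5a1e1_nt.DensePowers

open Filter Pool.Agent.X6.NearPow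

/-- The integers `x < N` such that some element of `A` lies within `w` of `c x^h + τ`. -/
def near (A : Set ℕ) (h : ℕ) (c τ w : ℝ) (N : ℕ) : Set ℕ :=
  {x | x < N ∧ ∃ a ∈ A, |(a : ℝ) - (c * (x : ℝ) ^ h + τ)| ≤ w}

/-- The elements of `A` below `X` whose distance from all terms of the sequences
`c_i x^h + τ_i`, `i < m`, is larger than `w`. -/
def off (A : Set ℕ) (h m : ℕ) (c τ : Fin m → ℝ) (w : ℝ) (X : ℕ) : Set ℕ :=
  {a | a ∈ A ∧ a < X ∧ ∀ (i : Fin m) (x : ℕ), w < |(a : ℝ) - (c i * (x : ℝ) ^ h + τ i)|}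

theorem part_one (h : ℕ) (hh : 2 ≤ h) (K : ℕ) (c₁ w δ : ℝ) (hc₁ : 0 < c₁) (hδ : 0 < δ) :
    ∃ N₀ : ℕ, ∀ A : Set ℕ, (∀ n, r A h n ≤ K) → ∀ N : ℕ, N₀ ≤ N → ∀ c τ : ℝ, c₁ ≤ c →
        ((near A h c τ w N).ncard : ℝ) ≤ δ * N := by
  classical
  obtain ⟨N₀, h1⟩ := Pool.Agent.X6.Dens.main h hh K c₁ w δ hc₁ hδ
  refine ⟨N₀, fun A hA N hN c τ hc => ?_⟩
  refine le_trans (le_of_eq ?_) (h1 A hA N hN c τ hc)
  have e1 : near A h c τ w N = (((Finset.range N).filter
      (fun x : ℕ => ∃ a ∈ A, |(a : ℝ) - (c * (x : ℝ) ^ h + τ)| ≤ w) : Finset ℕ) : Set ℕ) := by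
    ext x
    simp [near]
  rw [e1, Set.ncard_coe_finset]

open Classical in
theorem near_count {h : ℕ} (hh : 2 ≤ h) {A : Set ℕ} {K : ℕ} (hA : ∀ n, r A h n ≤ K)
    {c τ w ε : ℝ} (hc : 0 < c) (hε : 0 < ε) : ∃ X₀ : ℕ, ∀ X, X₀ ≤ X →
      ((((Finset.range X).filter
        (fun a => a ∈ A ∧ ∃ x : ℕ, |(a : ℝ) - (c * (x : ℝ) ^ h + τ)| ≤ w)).card : ℝ)) ^ h ≤
        ε * X := by
  have hh0 : h ≠ 0 := by omega
  set L : ℝ := (1 + |τ| + |w|) / c with hL
  have hL0 : 0 < L := by positivity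
  set G : ℕ := ⌊2 * w⌋₊ + 1 with hG
  have hG0 : (0 : ℝ) < G := by
    have : 0 < G := Nat.succ_pos _
    exact_mod_cast this
  set δ' : ℝ := min 1 (ε / L) / (2 * G) with hδ'
  have hmin0 : 0 < min 1 (ε / L) := lt_min one_pos (by positivity)
  have hδ'0 : 0 < δ' := by positivity
  obtain ⟨N₀, hN₀⟩ := part_one h hh K c w δ' hc hδ'0
  refine ⟨⌈((N₀ : ℝ) ^ h + 1) / L⌉₊ + 1, fun X hX => ?_⟩
  have hX1 : 1 ≤ X := by omega
  have hX1r : (1 : ℝ) ≤ X := by exact_mod_cast hX1
  have hX2 : (N₀ : ℝ) ^ h + 1 ≤ L * X := by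
    have h0 : ⌈((N₀ : ℝ) ^ h + 1) / L⌉₊ ≤ X := by omega
    have h1 : ((N₀ : ℝ) ^ h + 1) / L ≤ X := (Nat.le_ceil _).trans (by exact_mod_cast h0)
    rw [div_le_iff₀ hL0] at h1
    linarith
  set Y : ℝ := (L * X) ^ ((h : ℝ)⁻¹) with hY
  have hLX : 0 ≤ L * X := by positivity
  have hYh : Y ^ h = L * X := Real.rpow_inv_natCast_pow hLX hh0
  have hY0 : 0 ≤ Y := Real.rpow_nonneg hLX _
  have hY1 : 1 ≤ Y := by
    by_contra hcon
    push Not at hcon
    have h1 : Y ^ h < 1 := pow_lt_one₀ hY0 hcon hh0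
    have h2 : (0 : ℝ) ≤ (N₀ : ℝ) ^ h := by positivity
    linarith
  have hYN : (N₀ : ℝ) ≤ Y := by
    by_contra hcon
    push Not at hcon
    have h1 : Y ^ h < (N₀ : ℝ) ^ h := pow_lt_pow_left₀ hcon hY0 hh0
    linarith
  set N : ℕ := ⌊Y⌋₊ + 1 with hN
  have hNN : N₀ ≤ N := by
    have := Nat.le_floor hYN
    omega
  have hNY : (N : ℝ) ≤ 2 * Y := by
    have h1 := Nat.floor_le hY0
    rw [hN]
    push_cast
    linarith
  set T := (Finset.range X).filter
    (fun a => a ∈ A ∧ ∃ x : ℕ, |(a : ℝ) - (c * (x : ℝ) ^ h + τ)| ≤ w) with hT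
  have hch : ∀ a : ℕ, ∃ x : ℕ, (a ∈ T → |(a : ℝ) - (c * (x : ℝ) ^ h + τ)| ≤ w) := by
    intro a
    by_cases ha : a ∈ T
    · obtain ⟨x, hx⟩ := (Finset.mem_filter.1 ha).2.2
      exact ⟨x, fun _ => hx⟩
    · exact ⟨0, fun h1 => absurd h1 ha⟩
  choose f hf using hch
  set S := (Finset.range N).filter
    (fun x : ℕ => ∃ a ∈ A, |(a : ℝ) - (c * (x : ℝ) ^ h + τ)| ≤ w) with hS
  have hmaps : ∀ a ∈ T, f a ∈ S := by
    intro a ha
    have h1 := hf a ha
    have h2 := Finset.mem_filter.1 ha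
    rw [hS, Finset.mem_filter, Finset.mem_range]
    refine ⟨?_, a, h2.2.1, h1⟩
    have h3 : (a : ℝ) < X := by exact_mod_cast Finset.mem_range.1 h2.1
    have h4 : c * (f a : ℝ) ^ h ≤ (1 + |τ| + |w|) * X := by
      have e1 := (abs_le.1 h1).1
      have e2 := neg_abs_le τ
      have e3 := le_abs_self w
      have e4 := abs_nonneg τ
      have e5 := abs_nonneg w
      nlinarith
    have h5 : (f a : ℝ) ^ h ≤ Y ^ h := by
      rw [hYh, hL, div_mul_eq_mul_div, le_div_iff₀ hc]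
      linarith
    have h6 : (f a : ℝ) ≤ Y := (pow_le_pow_iff_left₀ (Nat.cast_nonneg _) hY0 hh0).1 h5
    have h7 := Nat.le_floor h6
    omega
  have hcard : T.card ≤ G * S.card := by
    refine Finset.card_le_mul_card_image_of_maps_to hmaps G ?_
    intro x _
    refine card_near (y := c * (x : ℝ) ^ h + τ) (z := w) ?_
    intro a ha
    rw [Finset.mem_filter] at ha
    rw [← ha.2]
    exact hf a ha.1
  have hSn : (S.card : ℝ) ≤ δ' * N := by
    have h1 := hN₀ A hA N hNN c τ le_rfl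
    have e1 : near A h c τ w N = ((S : Finset ℕ) : Set ℕ) := by
      ext x
      simp [near, hS]
    rwa [e1, Set.ncard_coe_finset] at h1
  have h1 : (T.card : ℝ) ≤ min 1 (ε / L) * Y := by
    calc (T.card : ℝ) ≤ G * S.card := by exact_mod_cast hcard
      _ ≤ G * (δ' * N) := mul_le_mul_of_nonneg_left hSn hG0.le
      _ ≤ G * (δ' * (2 * Y)) :=
          mul_le_mul_of_nonneg_left (mul_le_mul_of_nonneg_left hNY hδ'0.le) hG0.le
      _ = min 1 (ε / L) * Y := by
          rw [hδ']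
          field_simp
  calc (T.card : ℝ) ^ h ≤ (min 1 (ε / L) * Y) ^ h := pow_le_pow_left₀ (Nat.cast_nonneg _) h1 h
    _ = (min 1 (ε / L)) ^ h * (L * X) := by rw [mul_pow, hYh]
    _ ≤ (ε / L) * (L * X) := by
        apply mul_le_mul_of_nonneg_right _ hLX
        calc (min 1 (ε / L)) ^ h ≤ min 1 (ε / L) := pow_le_of_le_one hmin0.le (min_le_left _ _) hh0
          _ ≤ ε / L := min_le_right _ _
    _ = ε * X := by field_simp

open Classical in
theorem part_two (h : ℕ) (hh : 2 ≤ h) (A : Set ℕ) (m : ℕ) (c τ : Fin m → ℝ) (w : ℝ)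
    (hc : ∀ i, 0 < c i)
    (hoff : ∀ ε : ℝ, 0 < ε → ∀ᶠ X : ℕ in atTop, ((off A h m c τ w X).ncard : ℝ) ^ h ≤ ε * X)
    (η : ℝ) (hη : 0 < η)
    (hA : ∃ᶠ X : ℕ in atTop, η * X ≤ (({a | a ∈ A ∧ a < X} : Set ℕ).ncard : ℝ) ^ h)
    (K : ℕ) : ∃ n, K < r A h n := by
  by_contra hcon
  push Not at hcon
  have hh0 : h ≠ 0 := by omega
  set ε : ℝ := η / (2 * (m + 1) ^ h) with hε
  have hε0 : 0 < ε := by positivity
  choose X₀ hX₀ using fun i => near_count (τ := τ i) (w := w) hh hcon (hc i) hε0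
  obtain ⟨X₁, hX₁⟩ := eventually_atTop.1 (hoff ε hε0)
  obtain ⟨X, hX, hXA⟩ := frequently_atTop.1 hA (Finset.univ.sup X₀ + X₁ + 1)
  have hX0 : (0 : ℝ) < X := by
    have : 0 < X := by omega
    exact_mod_cast this
  set Y : ℝ := (ε * X) ^ ((h : ℝ)⁻¹) with hY
  have hεX : 0 ≤ ε * X := by positivity
  have hYh : Y ^ h = ε * X := Real.rpow_inv_natCast_pow hεX hh0
  have hY0 : 0 ≤ Y := Real.rpow_nonneg hεX _
  have hle : ∀ y : ℕ, (y : ℝ) ^ h ≤ ε * X → (y : ℝ) ≤ Y := by
    intro y hy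
    rw [← hYh] at hy
    exact (pow_le_pow_iff_left₀ (Nat.cast_nonneg _) hY0 hh0).1 hy
  set F : Finset ℕ := (Finset.range X).filter (fun a => a ∈ A) with hF
  set F0 : Finset ℕ := (Finset.range X).filter
    (fun a => a ∈ A ∧ ∀ (i : Fin m) (x : ℕ), w < |(a : ℝ) - (c i * (x : ℝ) ^ h + τ i)|) with hF0
  let Fi : Fin m → Finset ℕ := fun i => (Finset.range X).filter
    (fun a => a ∈ A ∧ ∃ x : ℕ, |(a : ℝ) - (c i * (x : ℝ) ^ h + τ i)| ≤ w)
  have hcov : F ⊆ F0 ∪ Finset.univ.biUnion Fi := by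
    intro a ha
    rw [hF, Finset.mem_filter] at ha
    rw [Finset.mem_union, Finset.mem_biUnion]
    by_cases h1 : ∀ (i : Fin m) (x : ℕ), w < |(a : ℝ) - (c i * (x : ℝ) ^ h + τ i)|
    · left
      rw [hF0, Finset.mem_filter]
      exact ⟨ha.1, ha.2, h1⟩
    · right
      push Not at h1
      obtain ⟨i, x, hx⟩ := h1
      exact ⟨i, Finset.mem_univ _, Finset.mem_filter.2 ⟨ha.1, ha.2, x, hx⟩⟩
  have h0 : (F0.card : ℝ) ≤ Y := by
    apply hle
    have h1 := hX₁ X (by omega)
    have e1 : off A h m c τ w X = ((F0 : Finset ℕ) : Set ℕ) := by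
      ext x
      simp only [off, hF0, Set.mem_ofPred_eq, Finset.coe_filter, Finset.mem_range]
      tauto
    rwa [e1, Set.ncard_coe_finset] at h1
  have hi : ∀ i, ((Fi i).card : ℝ) ≤ Y := by
    intro i
    apply hle
    refine hX₀ i X ?_
    have : X₀ i ≤ Finset.univ.sup X₀ := Finset.le_sup (Finset.mem_univ i)
    omega
  have hFc : (F.card : ℝ) ≤ (m + 1) * Y := by
    have h1 : F.card ≤ F0.card + ∑ i, (Fi i).card :=
      (Finset.card_le_card hcov).trans ((Finset.card_union_le _ _).trans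
        (Nat.add_le_add_left Finset.card_biUnion_le _))
    have h2 : (F.card : ℝ) ≤ F0.card + ∑ i, ((Fi i).card : ℝ) := by exact_mod_cast h1
    have h3 : ∑ i, ((Fi i).card : ℝ) ≤ ∑ _i : Fin m, Y := Finset.sum_le_sum (fun i _ => hi i)
    rw [Finset.sum_const, Finset.card_univ, Fintype.card_fin, nsmul_eq_mul] at h3
    linarith
  have hFA : (({a | a ∈ A ∧ a < X} : Set ℕ).ncard : ℝ) = F.card := by
    have e1 : ({a | a ∈ A ∧ a < X} : Set ℕ) = ((F : Finset ℕ) : Set ℕ) := by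
      ext x
      simp only [hF, Set.mem_ofPred_eq, Finset.coe_filter, Finset.mem_range]
      tauto
    rw [e1, Set.ncard_coe_finset]
  rw [hFA] at hXA
  have h5 : (F.card : ℝ) ^ h ≤ (m + 1) ^ h * (ε * X) := by
    calc (F.card : ℝ) ^ h ≤ ((m + 1) * Y) ^ h := pow_le_pow_left₀ (Nat.cast_nonneg _) hFc h
      _ = (m + 1) ^ h * (ε * X) := by rw [mul_pow, hYh]
  have h6 : ((m : ℝ) + 1) ^ h * (ε * X) = η * X / 2 := by
    rw [hε]
    field_simp
  have h7 : 0 < η * X := by positivity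
  linarith

/-- growth of an asymptotic basis -/
theorem basis_growth (h : ℕ) (A : Set ℕ) (hA : ∀ᶠ n : ℕ in atTop, 1 ≤ r A h n) :
    ∀ᶠ X : ℕ in atTop, (1 / 2 : ℝ) * X ≤ (({a | a ∈ A ∧ a < X} : Set ℕ).ncard : ℝ) ^ h := by
  classical
  obtain ⟨n₀, hn₀⟩ := eventually_atTop.1 hA
  refine eventually_atTop.2 ⟨2 * n₀, fun X hX => ?_⟩
  set F : Finset ℕ := (Finset.range X).filter (fun a => a ∈ A) with hF
  have hFA : (({a | a ∈ A ∧ a < X} : Set ℕ).ncard : ℝ) = F.card := by
    have e1 : ({a | a ∈ A ∧ a < X} : Set ℕ) = ((F : Finset ℕ) : Set ℕ) := by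
      ext x
      simp only [hF, Set.mem_ofPred_eq, Finset.coe_filter, Finset.mem_range]
      tauto
    rw [e1, Set.ncard_coe_finset]
  rw [hFA]
  have h1 : (Finset.Ico n₀ X).card ≤ (Fintype.piFinset (fun _ : Fin h => F)).card := by
    have h2 : Finset.Ico n₀ X ⊆ (Fintype.piFinset (fun _ : Fin h => F)).image
        (fun x => ∑ i, x i) := by
      intro n hn
      rw [Finset.mem_Ico] at hn
      have h3 := hn₀ n hn.1
      have h4 : (reps A h n).Nonempty := by
        rw [← Set.ncard_pos (reps_finite A h n)]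
        exact h3
      obtain ⟨s, hs1, hs2, hs3⟩ := h4
      obtain ⟨l, rfl⟩ := Quot.exists_rep s
      have hl : l.length = h := hs1
      rw [Finset.mem_image]
      refine ⟨fun i => l.get (Fin.cast hl.symm i), ?_, ?_⟩
      · rw [Fintype.mem_piFinset]
        intro i
        rw [hF, Finset.mem_filter, Finset.mem_range]
        have h5 : l.get (Fin.cast hl.symm i) ∈ l := List.get_mem _ _
        refine ⟨?_, hs2 _ h5⟩
        have h6 : l.get (Fin.cast hl.symm i) ≤ l.sum := List.single_le_sum (fun _ _ => Nat.zero_le _) _ h5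
        have h7 : l.sum = n := hs3
        omega
      · have h7 : l.sum = n := hs3
        subst hl
        rw [← h7]
        simp
    exact (Finset.card_le_card h2).trans Finset.card_image_le
  rw [Nat.card_Ico, Fintype.card_piFinset, Finset.prod_const, Finset.card_univ,
    Fintype.card_fin] at h1
  have h2 : (X : ℝ) - n₀ ≤ (F.card : ℝ) ^ h := by
    have h3 : X ≤ F.card ^ h + n₀ := by omega
    have h4 : (X : ℝ) ≤ (F.card : ℝ) ^ h + n₀ := by exact_mod_cast h3
    linarith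
  have h3 : (2 : ℝ) * n₀ ≤ X := by exact_mod_cast hX
  linarith

/-- **The Erdős–Turán conjecture for dense subsets of the `h`-th powers.** -/
theorem result (h : ℕ) (hh : 2 ≤ h) :
    (∀ (K : ℕ) (c₁ w δ : ℝ), 0 < c₁ → 0 < δ → ∃ N₀ : ℕ,
      ∀ A : Set ℕ, (∀ n, r A h n ≤ K) → ∀ N : ℕ, N₀ ≤ N → ∀ c τ : ℝ, c₁ ≤ c →
        ((near A h c τ w N).ncard : ℝ) ≤ δ * N) ∧
    (∀ (A : Set ℕ) (m : ℕ) (c τ : Fin m → ℝ) (w : ℝ), (∀ i, 0 < c i) →
      (∀ ε : ℝ, 0 < ε → ∀ᶠ X : ℕ in atTop, ((off A h m c τ w X).ncard : ℝ) ^ h ≤ ε * X) →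
      ((∃ η : ℝ, 0 < η ∧
          ∃ᶠ X : ℕ in atTop, η * X ≤ (({a | a ∈ A ∧ a < X} : Set ℕ).ncard : ℝ) ^ h) ∨
        (∀ᶠ n : ℕ in atTop, 1 ≤ r A h n)) →
      ∀ K : ℕ, ∃ n, K < r A h n) := by
  refine ⟨fun K c₁ w δ hc₁ hδ => part_one h hh K c₁ w δ hc₁ hδ, ?_⟩
  intro A m c τ w hc hoff hA K
  rcases hA with ⟨η, hη, hA⟩ | hA
  · exact part_two h hh A m c τ w hc hoff η hη hA K
  · exact part_two h hh A m c τ w hc hoff (1 / 2) (by norm_num)
      (basis_growth h A hA).frequently K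

end Pool.Agent.Results.MP_d5a1e1_nt.DensePowers
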