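import Pool.Agent.X8.OH.LinFin

/-!
# MP_d5a1e1_nt: the discrepancy of bounded representation functions of order `h` over windows

Let `h ≥ 2`, and let `r(n)` be the number of `a₁ ≤ ... ≤ a_h` in `A` with `a₁ + ... + a_h = n`.
Suppose that `r` is bounded and that `A` is an asymptotic basis of order `h` (put `μ = 1`) or an
infinite set with `a_n ≤ C n ^ h` (put `μ = Γ(1 + 1/h) ^ h / (h! C)`).  Let `m < (1 - 1/h) μ`.
For a finite set `W` of natural numbers and weights `w_k ≥ 0` put `S(n) = ∑ w_k r(n - k)`.  Then for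
all large `N`, for ALL `W` and `w` with `(∑ w_k)² / ∑ w_k² ≤ N ^ (1/h) / (log N)²` and
`k (∑ w_k)² / ∑ w_k² ≤ N / (log N)²` for `k ∈ W`, and ALL real `t` there is an `n ≤ N` with
`|S(n) - t| ≥ √(m ∑ w_k²)`.

So in a counterexample to the conjecture the number of representations over every window of at most
`N ^ (1/h) / (log N)²` elements (intervals, progressions with large differences, ...) has
fluctuations of the size of those of independent random variables.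

Method: let `F(z) = ∑_{a ∈ A} z^a`, `G(z) = ∑ w_k z^k`, and let `m_j` be the mean value of
`|G F^j|²` on a circle.  By Cauchy's inequality `m_{h-1}²` is at most `m_{h-2}` times the mean value
of `|G F^h|²` without its main term, and `m_{h-1} ≥ (h-1) F(ρ²) m_{h-2}`,
`m_{h-1} ≥ (h-1)! F(ρ²)^(h-1) ∑ w_k²` up to small errors, because all the coefficients are
nonnegative.

The second part of `result` concerns arbitrary complex coefficients: given `h, K, L, B, C` there is a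
`δ > 0` such that for every such `A` with `r ≤ K`, all large `N`, ALL sets `W` of at most `L` shifts
`k ≤ δ N`, ALL complex `c_k` with `max |c_k| = 1` and ALL trigonometric polynomials
`P(n) = ∑ α_θ e(n θ)` with `|P| ≤ B` and `∑ |α_θ| ≤ √N / (log N)²`, the inequality
`|∑ c_k r(n - k) - P(n)| ≥ δ` holds for at least `δ N` of the `n ≤ N`: the translates of `r` satisfy
no approximate linear relation. Method: there is a density `φ ≤ 1` of mass `≥ δ₁` with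
`|F|² ≥ |F|²_2 φ / 8`, and `∫ φ |∑ c_k z^k| ≥ c(L, δ₁) max |c_k|`.
-/

set_option autoImplicit false

open Finset Filter Topology

namespace Pool.Agent.Results.MP_d5a1e1_nt.WindowDiscrepancy

/-- `r_{A,h}(n)`: the number of `a₁ ≤ … ≤ a_h` in `A` with `a₁ + … + a_h = n`. -/
noncomputable def rep (A : Set ℕ) (h n : ℕ) : ℕ :=
  Set.ncard {a : Fin h → ℕ | Monotone a ∧ (∀ i, a i ∈ A) ∧ ∑ i, a i = n}

/-- The window sum `S(n) = ∑_{k ∈ W} w_k r_{A,h}(n - k)`; it is used only for `n ≥ max W`. -/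
noncomputable def window (A : Set ℕ) (h : ℕ) (W : Finset ℕ) (w : ℕ → ℝ) (n : ℕ) : ℝ :=
  ∑ k ∈ W, w k * rep A h (n - k)

theorem rep_eq (A : Set ℕ) (h n : ℕ) :
    rep A h n = Pool.Agent.H303R3.Rn A (Pool.Agent.H303R3.ET.Mo (k := h)) n := by
  classical
  unfold rep Pool.Agent.H303R3.Rn
  rw [← Set.ncard_coe_finset]
  congr 1
  ext a
  rw [Finset.mem_coe, Finset.mem_filter, Pool.Agent.H303R3.mem_tup]
  constructor
  · rintro ⟨h1, h2, h3⟩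
    exact ⟨⟨h2, h3⟩, h1⟩
  · rintro ⟨⟨h2, h3⟩, h1⟩
    exact ⟨h1, h2, h3⟩

open Classical in
theorem window_eq (A : Set ℕ) (h : ℕ) (W : Finset ℕ) (w : ℕ → ℝ) {n : ℕ} (hn : ∀ k ∈ W, k ≤ n) :
    X8.OH.Sr A h (fun k => if k ∈ W then w k else 0) n = window A h W w n := by
  unfold X8.OH.Sr window
  rw [Finset.Nat.sum_antidiagonal_eq_sum_range_succ
    (fun i j => (if i ∈ W then w i else 0) * X8.OH.rr A h j)]
  have h1 : ∀ k ∈ range (n + 1), (if k ∈ W then w k else 0) * X8.OH.rr A h (n - k) =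
      if k ∈ W then w k * (rep A h (n - k) : ℝ) else 0 := by
    intro k _
    unfold X8.OH.rr
    rw [rep_eq]
    split_ifs
    · rfl
    · exact zero_mul _
  rw [Finset.sum_congr rfl h1, ← Finset.sum_filter]
  refine Finset.sum_congr ?_ fun _ _ => rfl
  ext k
  simp only [Finset.mem_filter, Finset.mem_range]
  constructor
  · exact fun h => h.2
  · exact fun h => ⟨by have := hn k h; omega, h⟩

open Classical in
theorem sum_ite_eq' (W : Finset ℕ) (g : ℝ → ℝ) (w : ℕ → ℝ) :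
    ∑ k ∈ W, g (if k ∈ W then w k else 0) = ∑ k ∈ W, g (w k) :=
  Finset.sum_congr rfl fun k hk => by rw [if_pos hk]

/-- The trigonometric polynomial `P(n) = ∑_{θ ∈ Θ} α_θ e^{2 π i n θ}`. -/
noncomputable def trig (Θ : Finset ℝ) (α : ℝ → ℂ) (n : ℕ) : ℂ :=
  ∑ θ ∈ Θ, α θ * Complex.exp (2 * Real.pi * n * θ * Complex.I)

theorem trig_eq (Θ : Finset ℝ) (α : ℝ → ℂ) (n : ℕ) : X8.OH.PP Θ α n = trig Θ α n := by
  unfold X8.OH.PP trig
  refine Finset.sum_congr rfl fun θ _ => ?_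
  rw [X8.OH.en_eq]
  congr 2
  push_cast
  ring

open Classical in
theorem sum_eq (A : Set ℕ) (h : ℕ) (W : Finset ℕ) (c : ℕ → ℂ) {n : ℕ} (hn : ∀ k ∈ W, k ≤ n) :
    X8.OH.Sc A h (fun k => if k ∈ W then c k else 0) n = ∑ k ∈ W, c k * (rep A h (n - k) : ℂ) := by
  unfold X8.OH.Sc
  rw [Finset.Nat.sum_antidiagonal_eq_sum_range_succ
    (fun i j => (if i ∈ W then c i else 0) * ((X8.OH.rr A h j : ℝ) : ℂ))]
  have h1 : ∀ k ∈ range (n + 1), (if k ∈ W then c k else 0) * ((X8.OH.rr A h (n - k) : ℝ) : ℂ) =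
      if k ∈ W then c k * (rep A h (n - k) : ℂ) else 0 := by
    intro k _
    unfold X8.OH.rr
    rw [rep_eq]
    split_ifs
    · push_cast
      rfl
    · exact zero_mul _
  rw [Finset.sum_congr rfl h1, ← Finset.sum_filter]
  refine Finset.sum_congr ?_ fun _ _ => rfl
  ext k
  simp only [Finset.mem_filter, Finset.mem_range]
  constructor
  · exact fun h => h.2
  · exact fun h => ⟨by have := hn k h; omega, h⟩

/-- **No approximate linear relations between translates of representation functions of order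
`h`.** -/
theorem relations (h : ℕ) (hh : 2 ≤ h) (K L : ℕ) (B C : ℝ) :
    ∃ δ : ℝ, 0 < δ ∧ ∀ A : Set ℕ, (∀ n, rep A h n ≤ K) →
    ((∀ᶠ n in atTop, 1 ≤ rep A h n) ∨ (A.Infinite ∧
      ∀ n : ℕ, 1 ≤ n → (Nat.nth (fun a => a ∈ A) (n - 1) : ℝ) ≤ C * (n : ℝ) ^ h)) →
    ∀ᶠ N : ℕ in atTop, ∀ W : Finset ℕ, W.card ≤ L → (∀ k ∈ W, (k : ℝ) ≤ δ * N) →
      ∀ c : ℕ → ℂ, (∀ k ∈ W, ‖c k‖ ≤ 1) → (∃ κ ∈ W, ‖c κ‖ = 1) →
      ∀ (Θ : Finset ℝ) (α : ℝ → ℂ), (∀ n, ‖trig Θ α n‖ ≤ B) →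
      (∑ θ ∈ Θ, ‖α θ‖) * Real.log N ^ 2 ≤ √N →
      δ * N ≤ (Set.ncard {n : ℕ | n ≤ N ∧ (∀ k ∈ W, k ≤ n) ∧
        δ ≤ ‖∑ k ∈ W, c k * (rep A h (n - k) : ℂ) - trig Θ α n‖} : ℝ) := by
  classical
  obtain ⟨g, rfl⟩ : ∃ g, h = g + 2 := ⟨h - 2, by omega⟩
  obtain ⟨C', hC'⟩ : ∃ C' : ℝ, C' = max C 1 := ⟨_, rfl⟩
  have hC'1 : 1 ≤ C' := hC' ▸ le_max_right _ _
  have hC'C : C ≤ C' := hC' ▸ le_max_left _ _
  obtain ⟨μ, hμ⟩ : ∃ μ : ℝ, μ = Real.Gamma (1 / ((g + 2 : ℕ) : ℝ) + 1) ^ (g + 2) /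
    ((g + 2 : ℕ).factorial * C') := ⟨_, rfl⟩
  have hμ0 : 0 < μ := by
    rw [hμ]
    have : 0 < Real.Gamma (1 / ((g + 2 : ℕ) : ℝ) + 1) := Real.Gamma_pos_of_pos (by positivity)
    have h2 : (0 : ℝ) < (g + 2 : ℕ).factorial := by exact_mod_cast Nat.factorial_pos _
    positivity
  obtain ⟨m', hm'⟩ : ∃ m' : ℝ, m' = min (1 / 2) (μ / 2) := ⟨_, rfl⟩
  have hm'0 : 0 < m' := by rw [hm']; exact lt_min (by norm_num) (by linarith)
  have hm'1 : m' < 1 := by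
    have : m' ≤ 1 / 2 := by rw [hm']; exact min_le_left _ _
    linarith
  have hm'μ : m' < μ := by
    have : m' ≤ μ / 2 := by rw [hm']; exact min_le_right _ _
    linarith
  obtain ⟨δ, hδ, hmain⟩ := X8.OH.lin_growing g K L (max B 0) m' hm'0 (le_max_right _ _)
  refine ⟨δ, hδ, fun A hK hA => ?_⟩
  have hK' : ∀ n, Pool.Agent.H303R3.Rn A (Pool.Agent.H303R3.ET.Mo (k := g + 2)) n ≤ K := by
    intro n
    rw [← rep_eq]
    exact hK n
  have hne : A.Nonempty := by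
    rcases hA with hA | ⟨hinf, -⟩
    · obtain ⟨n, hn⟩ := hA.exists
      have h1 : 0 < rep A (g + 2) n := hn
      unfold rep at h1
      obtain ⟨a, -, ha, -⟩ := Set.nonempty_of_ncard_ne_zero h1.ne'
      exact ⟨a 0, ha 0⟩
    · exact hinf.nonempty
  have hR : ∀ᶠ R : ℝ in 𝓝[<] 1, m' ≤ (1 - R) * Pool.Agent.H303R3.fr A R ^ (g + 2) /
      (g + 2).factorial := by
    rcases hA with hA | ⟨hinf, hC⟩
    · refine X8.OH.basis_ev A (by omega) ?_ K hK' hm'1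
      filter_upwards [hA] with n hn
      rw [← rep_eq]
      exact hn
    · refine X8.OH.growth_ev A hinf (by omega) C' (fun n hn => (hC n hn).trans ?_) ?_
      · exact mul_le_mul_of_nonneg_right hC'C (by positivity)
      · rw [← hμ]
        exact hm'μ
  filter_upwards [hmain A hne hK' hR] with N hN
  intro W hW hWδ c hc1 hκ Θ α hP hα
  obtain ⟨κ, hκW, hκ1⟩ := hκ
  have h1 := hN W hW hWδ (fun k => if k ∈ W then c k else 0)
    (fun k hk => if_neg hk)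
    (fun k => by
      show ‖(if k ∈ W then c k else 0)‖ ≤ 1
      split_ifs with hk
      · exact hc1 k hk
      · simp)
    ⟨κ, hκW, by
      show ‖(if κ ∈ W then c κ else 0)‖ = 1
      rw [if_pos hκW]
      exact hκ1⟩ Θ α (fun n => by
      rw [trig_eq]
      exact (hP n).trans (le_max_left _ _)) hα
  refine h1.trans ?_
  rw [← Set.ncard_coe_finset]
  have hfin : Set.Finite {n : ℕ | n ≤ N ∧ (∀ k ∈ W, k ≤ n) ∧
        δ ≤ ‖∑ k ∈ W, c k * (rep A (g + 2) (n - k) : ℂ) - trig Θ α n‖} :=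
    (Set.finite_Iic N).subset fun n hn => hn.1
  have h2 : (((range (N + 1)).filter (fun n => (∀ k ∈ W, k ≤ n) ∧
      δ ≤ ‖X8.OH.Sc A (g + 2) (fun k => if k ∈ W then c k else 0) n - X8.OH.PP Θ α n‖) :
        Finset ℕ) : Set ℕ) ⊆ {n : ℕ | n ≤ N ∧ (∀ k ∈ W, k ≤ n) ∧
        δ ≤ ‖∑ k ∈ W, c k * (rep A (g + 2) (n - k) : ℂ) - trig Θ α n‖} := by
    intro n hn
    rw [Finset.mem_coe, Finset.mem_filter, mem_range, Nat.lt_succ_iff] at hn
    obtain ⟨a1, a2, a3⟩ := hn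
    refine ⟨a1, a2, ?_⟩
    rw [sum_eq A (g + 2) W c a2, trig_eq] at a3
    exact a3
  exact_mod_cast Set.ncard_le_ncard h2 hfin

/-- **Window discrepancy of representation functions of order `h`.** -/
theorem windows (h : ℕ) (hh : 2 ≤ h) (A : Set ℕ) (μ : ℝ)
    (hA : ((∀ᶠ n in atTop, 1 ≤ rep A h n) ∧ μ = 1) ∨
      (A.Infinite ∧ ∃ C : ℝ,
        (∀ n : ℕ, 1 ≤ n → (Nat.nth (fun a => a ∈ A) (n - 1) : ℝ) ≤ C * (n : ℝ) ^ h) ∧
        μ = Real.Gamma (1 + 1 / (h : ℝ)) ^ h / (h.factorial * C)))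
    (hb : ∃ K : ℕ, ∀ n, rep A h n ≤ K) (m : ℝ) (hm0 : 0 ≤ m) (hm : m < (1 - 1 / (h : ℝ)) * μ) :
    ∀ᶠ N : ℕ in atTop, ∀ (W : Finset ℕ) (w : ℕ → ℝ), (∀ k ∈ W, 0 ≤ w k) → 0 < ∑ k ∈ W, w k →
      ((∑ k ∈ W, w k) ^ 2 * Real.log N ^ 2) ^ h ≤ N * (∑ k ∈ W, w k ^ 2) ^ h →
      (∀ k ∈ W, k * (∑ k ∈ W, w k) ^ 2 * Real.log N ^ 2 ≤ N * ∑ k ∈ W, w k ^ 2) →
      ∀ t : ℝ, ∃ n ≤ N, (∀ k ∈ W, k ≤ n) ∧
        m * ∑ k ∈ W, w k ^ 2 ≤ (window A h W w n - t) ^ 2 := by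
  classical
  obtain ⟨g, rfl⟩ : ∃ g, h = g + 2 := ⟨h - 2, by omega⟩
  obtain ⟨K, hK⟩ := hb
  have hK' : ∀ n, Pool.Agent.H303R3.Rn A (Pool.Agent.H303R3.ET.Mo (k := g + 2)) n ≤ K := by
    intro n
    rw [← rep_eq]
    exact hK n
  have hcast : ((g + 2 : ℕ) : ℝ) = (g : ℝ) + 2 := by push_cast; ring
  rw [hcast] at hm
  have hfac : 0 < 1 - 1 / ((g : ℝ) + 2) := by
    have hg2 : (0 : ℝ) < (g : ℝ) + 2 := by positivity
    rw [sub_pos, div_lt_one hg2]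
    have : (0 : ℝ) ≤ g := Nat.cast_nonneg g
    linarith
  -- a slightly smaller mean value
  obtain ⟨m', hm1, hm2⟩ : ∃ m', m < (1 - 1 / ((g : ℝ) + 2)) * m' ∧ m' < μ := by
    obtain ⟨y, hy1, hy2⟩ := exists_between hm
    refine ⟨y / (1 - 1 / ((g : ℝ) + 2)), ?_, ?_⟩
    · rw [mul_div_cancel₀ _ hfac.ne']
      exact hy1
    · rw [div_lt_iff₀ hfac]
      linarith
  have hne : A.Nonempty := by
    rcases hA with ⟨hA, -⟩ | ⟨hinf, -⟩
    · obtain ⟨n, hn⟩ := hA.exists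
      have h1 : 0 < rep A (g + 2) n := hn
      unfold rep at h1
      obtain ⟨a, -, ha, -⟩ := Set.nonempty_of_ncard_ne_zero h1.ne'
      exact ⟨a 0, ha 0⟩
    · exact hinf.nonempty
  have hR : ∀ᶠ R : ℝ in 𝓝[<] 1, m' ≤ (1 - R) * Pool.Agent.H303R3.fr A R ^ (g + 2) /
      (g + 2).factorial := by
    rcases hA with ⟨hA, rfl⟩ | ⟨hinf, C, hC, rfl⟩
    · refine X8.OH.basis_ev A (by omega) ?_ K hK' hm2
      filter_upwards [hA] with n hn
      rw [← rep_eq]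
      exact hn
    · refine X8.OH.growth_ev A hinf (by omega) C hC ?_
      rw [add_comm (1 : ℝ)] at hm2
      exact hm2
  filter_upwards [X8.OH.growing A hne g K hK' m m' hm0 hm1 hR] with N hN
  intro W w hw hpos hc1 hc2 t
  have e1 := sum_ite_eq' W (fun x => x ^ 2) w
  have e2 := sum_ite_eq' W (fun x => x) w
  have h1 := hN W (fun k => if k ∈ W then w k else 0)
    (fun k => by
      show 0 ≤ (if k ∈ W then w k else 0)
      split_ifs with hk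
      · exact hw k hk
      · exact le_rfl)
    (fun k hk => if_neg hk)
  rw [e1, e2] at h1
  obtain ⟨n, hn1, hn2, hn3⟩ := h1 hpos hc1 hc2 t
  refine ⟨n, hn1, hn2, ?_⟩
  rw [window_eq A (g + 2) W w hn2] at hn3
  exact hn3

/-- **Representation functions of order `h` of counterexamples**: window sums with nonnegative
weights have large discrepancy, and translates satisfy no approximate linear relation. -/
theorem result :
    (∀ (h : ℕ), 2 ≤ h → ∀ (A : Set ℕ) (μ : ℝ),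
      (((∀ᶠ n in atTop, 1 ≤ rep A h n) ∧ μ = 1) ∨
      (A.Infinite ∧ ∃ C : ℝ,
        (∀ n : ℕ, 1 ≤ n → (Nat.nth (fun a => a ∈ A) (n - 1) : ℝ) ≤ C * (n : ℝ) ^ h) ∧
        μ = Real.Gamma (1 + 1 / (h : ℝ)) ^ h / (h.factorial * C))) →
      (∃ K : ℕ, ∀ n, rep A h n ≤ K) → ∀ m : ℝ, 0 ≤ m → m < (1 - 1 / (h : ℝ)) * μ →
      ∀ᶠ N : ℕ in atTop, ∀ (W : Finset ℕ) (w : ℕ → ℝ), (∀ k ∈ W, 0 ≤ w k) → 0 < ∑ k ∈ W, w k →
        ((∑ k ∈ W, w k) ^ 2 * Real.log N ^ 2) ^ h ≤ N * (∑ k ∈ W, w k ^ 2) ^ h →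
        (∀ k ∈ W, k * (∑ k ∈ W, w k) ^ 2 * Real.log N ^ 2 ≤ N * ∑ k ∈ W, w k ^ 2) →
        ∀ t : ℝ, ∃ n ≤ N, (∀ k ∈ W, k ≤ n) ∧
          m * ∑ k ∈ W, w k ^ 2 ≤ (window A h W w n - t) ^ 2) ∧
    (∀ (h : ℕ), 2 ≤ h → ∀ (K L : ℕ) (B C : ℝ),
      ∃ δ : ℝ, 0 < δ ∧ ∀ A : Set ℕ, (∀ n, rep A h n ≤ K) →
      ((∀ᶠ n in atTop, 1 ≤ rep A h n) ∨ (A.Infinite ∧
        ∀ n : ℕ, 1 ≤ n → (Nat.nth (fun a => a ∈ A) (n - 1) : ℝ) ≤ C * (n : ℝ) ^ h)) →
      ∀ᶠ N : ℕ in atTop, ∀ W : Finset ℕ, W.card ≤ L → (∀ k ∈ W, (k : ℝ) ≤ δ * N) →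
        ∀ c : ℕ → ℂ, (∀ k ∈ W, ‖c k‖ ≤ 1) → (∃ κ ∈ W, ‖c κ‖ = 1) →
        ∀ (Θ : Finset ℝ) (α : ℝ → ℂ), (∀ n, ‖trig Θ α n‖ ≤ B) →
        (∑ θ ∈ Θ, ‖α θ‖) * Real.log N ^ 2 ≤ √N →
        δ * N ≤ (Set.ncard {n : ℕ | n ≤ N ∧ (∀ k ∈ W, k ≤ n) ∧
          δ ≤ ‖∑ k ∈ W, c k * (rep A h (n - k) : ℂ) - trig Θ α n‖} : ℝ)) :=
  ⟨windows, relations⟩

end Pool.Agent.Results.MP_d5a1e1_nt.WindowDiscrepancy
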